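import Pool.Agent.Y883.GJ.Stm
import Pool.Agent.Helper112.MultLS

set_option autoImplicit false

/-! Project GS, job SHL, first part: the expansion of a shifted character in characters, sums over
characters ordered by the conductor. -/

namespace Pool.Agent.R461.GS

open Finset
open Pool.Agent.H807R2.Dav (ee)
open Pool.Agent.Y883.GJ

/-- the coefficients of the expansion of `χ(a - l)` -/
noncomputable def JJ {q : ℕ} [NeZero q] (χ : DirichletCharacter ℂ q) (a : ZMod q)
    (ψ : DirichletCharacter ℂ q) : ℂ := ∑ l : ZMod q, ψ⁻¹ l * χ (a - l)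

open Classical in
/-- `χ(a - l)` for the units `l` -/
noncomputable def ff {q : ℕ} [NeZero q] (χ : DirichletCharacter ℂ q) (a l : ZMod q) : ℂ :=
  if IsUnit l then χ (a - l) else 0

lemma ff_norm {q : ℕ} [NeZero q] (χ : DirichletCharacter ℂ q) (a l : ZMod q) : ‖ff χ a l‖ ≤ 1 := by
  unfold ff
  split_ifs
  · exact χ.norm_le_one _
  · simp

lemma tot_ne (q : ℕ) [NeZero q] : (q.totient : ℂ) ≠ 0 := by
  have : 0 < q.totient := Nat.totient_pos.mpr (Nat.pos_of_ne_zero (NeZero.ne q))
  exact_mod_cast this.ne'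

lemma tot_pos (q : ℕ) [NeZero q] : (0 : ℝ) < q.totient := by
  have : 0 < q.totient := Nat.totient_pos.mpr (Nat.pos_of_ne_zero (NeZero.ne q))
  exact_mod_cast this

/-- the expansion -/
lemma expand {q : ℕ} [NeZero q] (χ : DirichletCharacter ℂ q) (a l : ZMod q) :
    ff χ a l = (q.totient : ℂ)⁻¹ * ∑ ψ : DirichletCharacter ℂ q, JJ χ a ψ * ψ l := by
  classical
  have hq := tot_ne q
  unfold ff
  split_ifs with hl
  · have h1 : ∑ ψ : DirichletCharacter ℂ q, JJ χ a ψ * ψ l = q.totient * χ (a - l) := by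
      calc ∑ ψ : DirichletCharacter ℂ q, JJ χ a ψ * ψ l
          = ∑ ψ : DirichletCharacter ℂ q, ∑ m : ZMod q, (if IsUnit m then (ψ m⁻¹ * ψ l) * χ (a - m) else 0) := by
            refine Finset.sum_congr rfl fun ψ _ => ?_
            unfold JJ
            rw [Finset.sum_mul]
            refine Finset.sum_congr rfl fun m _ => ?_
            split_ifs with hm
            · have h2 : ψ⁻¹ m = ψ m⁻¹ := by
                rw [MulChar.inv_apply]
                congr 1
                rw [Ring.inverse_of_isUnit hm]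
                have := ZMod.inv_coe_unit hm.unit
                simpa using this.symm
              rw [h2]
              ring
            · rw [MulChar.map_nonunit _ hm]
              ring
        _ = ∑ m : ZMod q, (if IsUnit m then (∑ ψ : DirichletCharacter ℂ q, ψ m⁻¹ * ψ l) * χ (a - m) else 0) := by
            rw [Finset.sum_comm]
            refine Finset.sum_congr rfl fun m _ => ?_
            split_ifs
            · rw [Finset.sum_mul]
            · simp
        _ = ∑ m : ZMod q, (if m = l then (q.totient : ℂ) * χ (a - l) else 0) := by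
            refine Finset.sum_congr rfl fun m _ => ?_
            by_cases hm : IsUnit m
            · rw [if_pos hm, DirichletCharacter.sum_char_inv_mul_char_eq ℂ hm l]
              by_cases h : m = l
              · rw [if_pos h, if_pos h, h]
              · rw [if_neg h, if_neg h, zero_mul]
            · rw [if_neg hm, if_neg (fun h => hm (by rw [h]; exact hl))]
        _ = q.totient * χ (a - l) := by
            rw [Finset.sum_ite_eq' univ l]
            simp
    rw [h1, ← mul_assoc, inv_mul_cancel₀ hq, one_mul]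
  · have h1 : ∀ ψ : DirichletCharacter ℂ q, ψ l = 0 := fun ψ => MulChar.map_nonunit _ hl
    simp [h1]

/-- the two bounds for the coefficients -/
lemma JJ_le (hJ : JacStm) {q : ℕ} [NeZero q] (χ : DirichletCharacter ℂ q) (a : ZMod q)
    (ψ : DirichletCharacter ℂ q) :
    ‖JJ χ a ψ‖ ≤ q * (1 + Real.log q) * Real.sqrt ((Nat.gcd a.val q : ℝ) / χ.conductor) ∧
    ‖JJ χ a ψ‖ ≤ q * (1 + Real.log q) * Real.sqrt ((Nat.gcd a.val q : ℝ) / ψ.conductor) := by
  constructor
  · have h := hJ q χ ψ⁻¹ a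
    have e : JJ χ a ψ = ∑ l : ZMod q, χ l * ψ⁻¹ (a - l) := by
      unfold JJ
      rw [← Equiv.sum_comp (Equiv.subLeft a)]
      refine Finset.sum_congr rfl fun l _ => ?_
      simp only [Equiv.subLeft_apply, sub_sub_cancel]
      ring
    rw [e]
    exact h
  · have h := hJ q ψ⁻¹ χ a
    rw [DirichletCharacter.conductor_inv] at h
    exact h

/-- restriction to the integers prime to `q` -/
noncomputable def res (q : ℕ) (a : ℕ → ℂ) (m : ℕ) : ℂ := if m.Coprime q then a m else 0

lemma res_sq (q X : ℕ) (a : ℕ → ℂ) : ∑ m ∈ Icc 1 X, ‖res q a m‖ ^ 2 ≤ ∑ m ∈ Icc 1 X, ‖a m‖ ^ 2 := by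
  refine sum_le_sum fun m _ => ?_
  unfold res
  split_ifs
  · exact le_rfl
  · rw [norm_zero]
    nlinarith [sq_nonneg ‖a m‖]

lemma sum_change (q f X : ℕ) (h : f ∣ q) (ψ : DirichletCharacter ℂ f) (a : ℕ → ℂ) :
    ∑ m ∈ Icc 1 X, a m * (DirichletCharacter.changeLevel h ψ) (m : ZMod q) =
      ∑ m ∈ Icc 1 X, res q a m * ψ (m : ZMod f) := by
  apply sum_congr rfl
  intro b _
  unfold res
  by_cases hb : b.Coprime q
  · have h1 := DirichletCharacter.changeLevel_eq_cast_of_dvd' ψ h (a := (b : ℤ))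
      (by exact_mod_cast Nat.isCoprime_iff_coprime.mpr hb)
    push_cast at h1
    rw [h1, if_pos hb]
  · rw [MulChar.map_nonunit _ (fun hu => hb ((ZMod.isUnit_iff_coprime b _).mp hu)), mul_zero, if_neg hb,
      zero_mul]

open Classical in
/-- sums over characters, ordered by the conductor -/
lemma by_cond (q : ℕ) [NeZero q] (P : ℕ → Prop) [DecidablePred P] (w : DirichletCharacter ℂ q → ℝ) (hw : ∀ χ, 0 ≤ w χ)
    (W : (f : ℕ) → DirichletCharacter ℂ f → ℝ)
    (hW : ∀ f (h : f ∣ q) (ψ : DirichletCharacter ℂ f),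
      w (DirichletCharacter.changeLevel h ψ) ≤ W f ψ) :
    ∑ χ ∈ (univ : Finset (DirichletCharacter ℂ q)).filter (fun χ => P χ.conductor), w χ ≤
      ∑ f ∈ q.divisors.filter P,
        ∑ ψ ∈ (univ : Finset (DirichletCharacter ℂ f)).filter (fun χ => χ.IsPrimitive), W f ψ := by
  have h1 : ∀ χ ∈ (univ : Finset (DirichletCharacter ℂ q)).filter (fun χ => P χ.conductor),
      χ.conductor ∈ q.divisors.filter P := by
    intro χ hχ
    rw [mem_filter] at hχ ⊢
    exact ⟨Nat.mem_divisors.mpr ⟨χ.conductor_dvd_level, NeZero.ne q⟩, hχ.2⟩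
  rw [← sum_fiberwise_of_maps_to h1]
  apply sum_le_sum
  intro f hf
  rw [mem_filter, Nat.mem_divisors] at hf
  have hfm := hf.1.1
  have h2 : (((univ : Finset (DirichletCharacter ℂ q)).filter (fun χ => P χ.conductor)).filter
      (fun χ => χ.conductor = f)) ⊆
      ((univ : Finset (DirichletCharacter ℂ f)).filter (fun χ => χ.IsPrimitive)).image
        (DirichletCharacter.changeLevel hfm) := by
    intro χ hχ
    rw [mem_filter] at hχ
    obtain ⟨_, hc⟩ := hχ
    subst hc
    rw [mem_image]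
    exact ⟨χ.primitiveCharacter, by
      rw [mem_filter]; exact ⟨mem_univ _, χ.primitiveCharacter_isPrimitive⟩,
      χ.changeLevel_primitiveCharacter⟩
  calc _ ≤ ∑ χ ∈ ((univ : Finset (DirichletCharacter ℂ f)).filter (fun χ => χ.IsPrimitive)).image
        (DirichletCharacter.changeLevel hfm), w χ :=
        sum_le_sum_of_subset_of_nonneg h2 fun χ _ _ => hw χ
    _ = ∑ ψ ∈ (univ : Finset (DirichletCharacter ℂ f)).filter (fun χ => χ.IsPrimitive),
        w (DirichletCharacter.changeLevel hfm ψ) := by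
        rw [sum_image]
        intro x _ y _ hxy
        exact DirichletCharacter.changeLevel_injective hfm hxy
    _ ≤ _ := sum_le_sum fun ψ _ => hW f hfm ψ

open Classical in
/-- mean value over the characters with a small conductor -/
lemma ms_small (q X D : ℕ) [NeZero q] (a : ℕ → ℂ) :
    ∑ χ ∈ (univ : Finset (DirichletCharacter ℂ q)).filter (fun χ => χ.conductor ≤ D),
      ‖∑ m ∈ Icc 1 X, a m * χ (m : ZMod q)‖ ^ 2 ≤ 6 * (X + (D : ℝ) ^ 2) * ∑ m ∈ Icc 1 X, ‖a m‖ ^ 2 := by
  have h1 := by_cond q (fun f => f ≤ D) (fun χ => ‖∑ m ∈ Icc 1 X, a m * χ (m : ZMod q)‖ ^ 2)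
    (fun _ => by positivity) (fun f ψ => ‖∑ m ∈ Icc 1 X, res q a m * ψ (m : ZMod f)‖ ^ 2)
    (fun f h ψ => by rw [sum_change])
  refine h1.trans ?_
  have h2 := Pool.Agent.Helper112.mult_large_sieve X D (res q a)
  have h3 : ∑ f ∈ q.divisors.filter (fun f => f ≤ D),
      ∑ ψ ∈ (univ : Finset (DirichletCharacter ℂ f)).filter (fun χ => χ.IsPrimitive),
        ‖∑ m ∈ Icc 1 X, res q a m * ψ (m : ZMod f)‖ ^ 2 ≤
      ∑ f ∈ Icc 1 D, ((f : ℝ) / (Nat.totient f : ℝ)) *
        ∑ χ ∈ (univ : Finset (DirichletCharacter ℂ f)).filter (fun χ => χ.IsPrimitive),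
          ‖∑ n ∈ Icc 1 X, res q a n * χ (n : ZMod f)‖ ^ 2 := by
    refine le_trans (sum_le_sum fun f hf => ?_) (sum_le_sum_of_subset_of_nonneg ?_ fun f _ _ => by positivity)
    · rw [mem_filter, Nat.mem_divisors] at hf
      have hf0 : 0 < f := Nat.pos_of_dvd_of_pos hf.1.1 (Nat.pos_of_ne_zero (NeZero.ne q))
      have ht : 0 < f.totient := Nat.totient_pos.2 hf0
      have h4 : (1 : ℝ) ≤ (f : ℝ) / (Nat.totient f : ℝ) := by
        rw [le_div_iff₀ (by exact_mod_cast ht), one_mul]
        exact_mod_cast Nat.totient_le f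
      have h5 : 0 ≤ ∑ ψ ∈ (univ : Finset (DirichletCharacter ℂ f)).filter (fun χ => χ.IsPrimitive),
        ‖∑ m ∈ Icc 1 X, res q a m * ψ (m : ZMod f)‖ ^ 2 := by positivity
      nlinarith
    · intro f hf
      rw [mem_filter, Nat.mem_divisors] at hf
      have hf0 : 0 < f := Nat.pos_of_dvd_of_pos hf.1.1 (Nat.pos_of_ne_zero (NeZero.ne q))
      rw [mem_Icc]
      exact ⟨hf0, hf.2⟩
  refine h3.trans (h2.trans ?_)
  exact mul_le_mul_of_nonneg_left (res_sq q X a) (by positivity)

open Classical in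
/-- mean value over the characters with a given conductor -/
lemma ms_one (hL : L2Stm) (q X d : ℕ) [NeZero q] (hd : d ∣ q) (a : ℕ → ℂ) :
    ∑ χ ∈ (univ : Finset (DirichletCharacter ℂ q)).filter (fun χ => χ.conductor = d),
      ‖∑ m ∈ Icc 1 X, a m * χ (m : ZMod q)‖ ^ 2 ≤ ((X : ℝ) + d) * ∑ m ∈ Icc 1 X, ‖a m‖ ^ 2 := by
  have h1 := by_cond q (fun f => f = d) (fun χ => ‖∑ m ∈ Icc 1 X, a m * χ (m : ZMod q)‖ ^ 2)
    (fun _ => by positivity) (fun f ψ => ‖∑ m ∈ Icc 1 X, res q a m * ψ (m : ZMod f)‖ ^ 2)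
    (fun f h ψ => by rw [sum_change])
  refine h1.trans ?_
  have hq0 : 0 < q := Nat.pos_of_ne_zero (NeZero.ne q)
  have hd0 : 0 < d := Nat.pos_of_dvd_of_pos hd hq0
  have : NeZero d := ⟨hd0.ne'⟩
  have h3 : q.divisors.filter (fun f => f = d) = {d} := by
    ext f
    rw [mem_filter, Nat.mem_divisors, mem_singleton]
    constructor
    · exact fun h => h.2
    · rintro rfl
      exact ⟨⟨hd, hq0.ne'⟩, rfl⟩
  rw [h3, sum_singleton]
  have h2 := (hL d X (res q a)).1
  refine le_trans (sum_le_sum_of_subset_of_nonneg (filter_subset _ _) fun _ _ _ => by positivity) (h2.trans ?_)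
  exact mul_le_mul_of_nonneg_left (res_sq q X a) (by positivity)

lemma prod_low (S : Finset ℕ) (hS : ∀ p ∈ S, 2 ≤ p) :
    (1 : ℚ) / (S.card + 1) ≤ ∏ p ∈ S, (1 - (p : ℚ)⁻¹) := by
  induction S using Finset.induction_on_max with
  | empty => simp
  | insert a s hmax ih =>
    have ha : a ∉ s := fun h => (hmax a h).false
    rw [prod_insert ha, card_insert_of_notMem ha]
    have h1 := ih fun p hp => hS p (mem_insert_of_mem hp)
    have h2 : 2 ≤ a := hS a (mem_insert_self _ _)
    have h3 : s.card ≤ a - 2 := by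
      have : s ⊆ Ico 2 a := by
        intro p hp
        rw [mem_Ico]
        exact ⟨hS p (mem_insert_of_mem hp), hmax p hp⟩
      have := card_le_card this
      rwa [Nat.card_Ico] at this
    have h4 : (s.card : ℚ) + 2 ≤ a := by
      exact_mod_cast (by omega : s.card + 2 ≤ a)
    have hc : (0 : ℚ) ≤ s.card := Nat.cast_nonneg _
    have h5 : (a : ℚ)⁻¹ ≤ 1 / (s.card + 2) := by
      rw [← one_div]
      exact one_div_le_one_div_of_le (by linarith) h4
    have h6 : ((s.card : ℚ) + 1) / (s.card + 2) ≤ 1 - (a : ℚ)⁻¹ := by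
      have : ((s.card : ℚ) + 1) / (s.card + 2) = 1 - 1 / (s.card + 2) := by
        field_simp
        ring
      rw [this]
      linarith
    calc (1 : ℚ) / ((s.card + 1 : ℕ) + 1) =
        ((s.card : ℚ) + 1) / (s.card + 2) * (1 / (s.card + 1)) := by
          push_cast
          field_simp
          ring
      _ ≤ (1 - (a : ℚ)⁻¹) * ∏ p ∈ s, (1 - (p : ℚ)⁻¹) := by
          apply mul_le_mul h6 h1 (by positivity)
          refine le_trans (by positivity) h6

lemma phi_low (q : ℕ) (hq : 1 ≤ q) : (q : ℝ) ≤ (1 + 2 * Real.log q) * Nat.totient q := by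
  have h1 := prod_low q.primeFactors (fun p hp => (Nat.prime_of_mem_primeFactors hp).two_le)
  have h2 := Nat.totient_eq_mul_prod_factors q
  have h3 : (q : ℚ) ≤ (q.primeFactors.card + 1) * Nat.totient q := by
    rw [h2]
    rw [div_le_iff₀ (by positivity)] at h1
    have h0 : (0 : ℚ) ≤ q := Nat.cast_nonneg _
    nlinarith
  have h4 : (q : ℝ) ≤ (q.primeFactors.card + 1) * Nat.totient q := by exact_mod_cast h3
  have h5 : (q.primeFactors.card : ℝ) ≤ 2 * Real.log q := by
    have h8 : 2 ^ q.primeFactors.card ≤ q := by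
      calc 2 ^ q.primeFactors.card = ∏ p ∈ q.primeFactors, 2 := by rw [prod_const]
        _ ≤ ∏ p ∈ q.primeFactors, p :=
          prod_le_prod' fun p hp => (Nat.prime_of_mem_primeFactors hp).two_le
        _ ≤ q := Nat.le_of_dvd (by omega) (Nat.prod_primeFactors_dvd q)
    have q1 : (2 : ℝ) ^ q.primeFactors.card ≤ q := by exact_mod_cast h8
    have q2 := Real.log_le_log (by positivity) q1
    rw [Real.log_pow] at q2
    have q3 : (1 : ℝ) / 2 ≤ Real.log 2 := by linarith [Real.log_two_gt_d9]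
    nlinarith [(Nat.cast_nonneg q.primeFactors.card : (0 : ℝ) ≤ (q.primeFactors.card : ℝ))]
  refine h4.trans ?_
  apply mul_le_mul_of_nonneg_right _ (Nat.cast_nonneg _)
  linarith

end Pool.Agent.R461.GS
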