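import Pool.Agent.R461.GS.Shl1
import Pool.Agent.Y183.GJ.Bil1
import Pool.Agent.TH935.LP.L1

set_option autoImplicit false

/-! Project GS, job SHL, second part: bilinear sums with a shifted character. -/

namespace Pool.Agent.R461.GS

open Finset
open Pool.Agent.H807R2.Dav (ee)
open Pool.Agent.Y883.GJ
open Pool.Agent.Y183.GJ (ci gi Yi Xi Dm wn ai decomp w_sum gi_pos gi_le lt_gi)

/-- a character sum -/
noncomputable def AS {q : ℕ} (X : ℕ) (a : ℕ → ℂ) (ψ : DirichletCharacter ℂ q) : ℂ :=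
  ∑ m ∈ Icc 1 X, a m * ψ (m : ZMod q)

/-- the square root of the sum of the squares -/
noncomputable def nn (X : ℕ) (a : ℕ → ℂ) : ℝ := √(∑ m ∈ Icc 1 X, ‖a m‖ ^ 2)

lemma nn_nonneg (X : ℕ) (a : ℕ → ℂ) : 0 ≤ nn X a := Real.sqrt_nonneg _

open Classical in
/-- small conductors -/
lemma part_small (q X Y D : ℕ) [NeZero q] (hX : D ^ 2 ≤ X) (hY : D ^ 2 ≤ Y) (a b : ℕ → ℂ) :
    ∑ ψ ∈ (univ : Finset (DirichletCharacter ℂ q)).filter (fun χ => χ.conductor ≤ D),
      ‖AS X a ψ‖ * ‖AS Y b ψ‖ ≤ 12 * √((X : ℝ) * Y) * (nn X a * nn Y b) := by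
  have hX' : (D : ℝ) ^ 2 ≤ X := by exact_mod_cast hX
  have hY' : (D : ℝ) ^ 2 ≤ Y := by exact_mod_cast hY
  have h1 := ms_small q X D a
  have h2 := ms_small q Y D b
  have h3 := Real.sum_mul_le_sqrt_mul_sqrt
    ((univ : Finset (DirichletCharacter ℂ q)).filter (fun χ => χ.conductor ≤ D))
    (fun ψ => ‖AS X a ψ‖) (fun ψ => ‖AS Y b ψ‖)
  refine h3.trans ?_
  have h4 : √(∑ ψ ∈ (univ : Finset (DirichletCharacter ℂ q)).filter (fun χ => χ.conductor ≤ D),
      ‖AS X a ψ‖ ^ 2) ≤ √(12 * X) * nn X a := by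
    unfold nn
    rw [← Real.sqrt_mul (by positivity)]
    apply Real.sqrt_le_sqrt
    refine h1.trans ?_
    apply mul_le_mul_of_nonneg_right _ (by positivity)
    linarith
  have h5 : √(∑ ψ ∈ (univ : Finset (DirichletCharacter ℂ q)).filter (fun χ => χ.conductor ≤ D),
      ‖AS Y b ψ‖ ^ 2) ≤ √(12 * Y) * nn Y b := by
    unfold nn
    rw [← Real.sqrt_mul (by positivity)]
    apply Real.sqrt_le_sqrt
    refine h2.trans ?_
    apply mul_le_mul_of_nonneg_right _ (by positivity)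
    linarith
  refine (mul_le_mul h4 h5 (Real.sqrt_nonneg _) (by have := nn_nonneg X a; positivity)).trans
    (le_of_eq ?_)
  have h6 : √(12 * (X : ℝ)) * √(12 * (Y : ℝ)) = 12 * √((X : ℝ) * Y) := by
    rw [← Real.sqrt_mul (by positivity)]
    rw [show (12 : ℝ) * X * (12 * Y) = 12 ^ 2 * (X * Y) by ring]
    rw [Real.sqrt_mul (by positivity), Real.sqrt_sq (by norm_num)]
  calc √(12 * (X : ℝ)) * nn X a * (√(12 * (Y : ℝ)) * nn Y b) =
      (√(12 * (X : ℝ)) * √(12 * (Y : ℝ))) * (nn X a * nn Y b) := by ring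
    _ = _ := by rw [h6]

open Classical in
/-- one conductor -/
lemma part_one (hL : L2Stm) (q X Y D d : ℕ) [NeZero q] (hd : d ∣ q) (hD : 1 ≤ D) (hDd : D ≤ d) (a b : ℕ → ℂ) :
    (∑ ψ ∈ (univ : Finset (DirichletCharacter ℂ q)).filter (fun χ => χ.conductor = d),
      ‖AS X a ψ‖ * ‖AS Y b ψ‖) / √(d : ℝ) ≤ √((X : ℝ) * Y / D + X + Y + q) * (nn X a * nn Y b) := by
  have h1 := ms_one hL q X d hd a
  have h2 := ms_one hL q Y d hd b
  have h3 := Real.sum_mul_le_sqrt_mul_sqrt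
    ((univ : Finset (DirichletCharacter ℂ q)).filter (fun χ => χ.conductor = d))
    (fun ψ => ‖AS X a ψ‖) (fun ψ => ‖AS Y b ψ‖)
  have h4 : √(∑ ψ ∈ (univ : Finset (DirichletCharacter ℂ q)).filter (fun χ => χ.conductor = d),
      ‖AS X a ψ‖ ^ 2) ≤ √(X + d) * nn X a := by
    unfold nn
    rw [← Real.sqrt_mul (by positivity)]
    exact Real.sqrt_le_sqrt h1
  have h5 : √(∑ ψ ∈ (univ : Finset (DirichletCharacter ℂ q)).filter (fun χ => χ.conductor = d),
      ‖AS Y b ψ‖ ^ 2) ≤ √(Y + d) * nn Y b := by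
    unfold nn
    rw [← Real.sqrt_mul (by positivity)]
    exact Real.sqrt_le_sqrt h2
  have hd0 : (0 : ℝ) < d := by exact_mod_cast (by omega : 0 < d)
  have hD0 : (0 : ℝ) < D := by exact_mod_cast (by omega : 0 < D)
  have hDd' : (D : ℝ) ≤ d := by exact_mod_cast hDd
  have hdq : (d : ℝ) ≤ q := by exact_mod_cast Nat.le_of_dvd (Nat.pos_of_ne_zero (NeZero.ne q)) hd
  have hsd : 0 < √(d : ℝ) := Real.sqrt_pos.2 hd0
  have hn1 := nn_nonneg X a
  have hn2 := nn_nonneg Y b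
  rw [div_le_iff₀ hsd]
  refine h3.trans ((mul_le_mul h4 h5 (Real.sqrt_nonneg _) (by positivity)).trans ?_)
  have h6 : √((X : ℝ) + d) * √((Y : ℝ) + d) ≤ √((X : ℝ) * Y / D + X + Y + q) * √(d : ℝ) := by
    rw [← Real.sqrt_mul (by positivity), ← Real.sqrt_mul (by positivity)]
    apply Real.sqrt_le_sqrt
    have h7 : (X : ℝ) * Y ≤ (X : ℝ) * Y / D * d := by
      rw [div_mul_eq_mul_div, le_div_iff₀ hD0]
      exact mul_le_mul_of_nonneg_left hDd' (by positivity)
    have h8 : (d : ℝ) * d ≤ q * d := mul_le_mul_of_nonneg_right hdq hd0.le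
    nlinarith
  calc √((X : ℝ) + d) * nn X a * (√((Y : ℝ) + d) * nn Y b) =
      (√((X : ℝ) + d) * √((Y : ℝ) + d)) * (nn X a * nn Y b) := by ring
    _ ≤ (√((X : ℝ) * Y / D + X + Y + q) * √(d : ℝ)) * (nn X a * nn Y b) :=
        mul_le_mul_of_nonneg_right h6 (by positivity)
    _ = _ := by ring

open Classical in
/-- all characters -/
lemma bil_char (hJ : JacStm) (hL : L2Stm) (q X Y D : ℕ) [NeZero q] (hD : 1 ≤ D) (hX : D ^ 2 ≤ X)
    (hY : D ^ 2 ≤ Y) (a b : ℕ → ℂ) (χ : DirichletCharacter ℂ q) (α : ZMod q) :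
    ∑ ψ : DirichletCharacter ℂ q, ‖JJ χ α ψ‖ * (‖AS X a ψ‖ * ‖AS Y b ψ‖) ≤
      q * (1 + Real.log q) * (nn X a * nn Y b) *
        (12 * √((Nat.gcd α.val q : ℝ) / χ.conductor) * √((X : ℝ) * Y) +
          (q.divisors.card : ℝ) * √(Nat.gcd α.val q : ℝ) * √((X : ℝ) * Y / D + X + Y + q)) := by
  have hq0 : 0 < q := Nat.pos_of_ne_zero (NeZero.ne q)
  have hq1 : (1 : ℝ) ≤ q := by exact_mod_cast hq0
  have hlq : 0 ≤ Real.log q := Real.log_nonneg hq1
  have hn1 := nn_nonneg X a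
  have hn2 := nn_nonneg Y b
  have hF : 0 ≤ (q : ℝ) * (1 + Real.log q) := by positivity
  rw [← Finset.sum_filter_add_sum_filter_not univ (fun ψ : DirichletCharacter ℂ q => ψ.conductor ≤ D)]
  have h1 : ∑ ψ ∈ (univ : Finset (DirichletCharacter ℂ q)).filter (fun χ => χ.conductor ≤ D),
      ‖JJ χ α ψ‖ * (‖AS X a ψ‖ * ‖AS Y b ψ‖) ≤
      (q * (1 + Real.log q) * √((Nat.gcd α.val q : ℝ) / χ.conductor)) *
        (12 * √((X : ℝ) * Y) * (nn X a * nn Y b)) := by
    refine le_trans ?_ (mul_le_mul_of_nonneg_left (part_small q X Y D hX hY a b) (by positivity))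
    rw [mul_sum]
    refine sum_le_sum fun ψ _ => ?_
    exact mul_le_mul_of_nonneg_right (JJ_le hJ χ α ψ).1 (by positivity)
  have h2 : ∑ ψ ∈ (univ : Finset (DirichletCharacter ℂ q)).filter (fun χ => ¬ χ.conductor ≤ D),
      ‖JJ χ α ψ‖ * (‖AS X a ψ‖ * ‖AS Y b ψ‖) ≤
      (q.divisors.card : ℝ) * ((q * (1 + Real.log q) * √(Nat.gcd α.val q : ℝ)) *
        (√((X : ℝ) * Y / D + X + Y + q) * (nn X a * nn Y b))) := by
    have h3 : ∀ ψ ∈ (univ : Finset (DirichletCharacter ℂ q)).filter (fun χ => ¬ χ.conductor ≤ D),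
        ψ.conductor ∈ q.divisors.filter (fun d => D < d) := by
      intro ψ hψ
      rw [mem_filter] at hψ ⊢
      exact ⟨Nat.mem_divisors.mpr ⟨ψ.conductor_dvd_level, NeZero.ne q⟩, by omega⟩
    rw [← sum_fiberwise_of_maps_to h3]
    have h4 : ∀ d ∈ q.divisors.filter (fun d => D < d),
        ∑ ψ ∈ ((univ : Finset (DirichletCharacter ℂ q)).filter (fun χ => ¬ χ.conductor ≤ D)).filter
          (fun ψ => ψ.conductor = d), ‖JJ χ α ψ‖ * (‖AS X a ψ‖ * ‖AS Y b ψ‖) ≤
        (q * (1 + Real.log q) * √(Nat.gcd α.val q : ℝ)) *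
        (√((X : ℝ) * Y / D + X + Y + q) * (nn X a * nn Y b)) := by
      intro d hd
      rw [mem_filter, Nat.mem_divisors] at hd
      have hd0 : (0 : ℝ) < d := by exact_mod_cast (by omega : 0 < d)
      have hsd : 0 < √(d : ℝ) := Real.sqrt_pos.2 hd0
      refine le_trans ?_ (mul_le_mul_of_nonneg_left (part_one hL q X Y D d hd.1.1 hD hd.2.le a b) (by positivity))
      rw [mul_div_assoc', mul_sum, sum_div]
      refine le_trans (sum_le_sum_of_subset_of_nonneg (t := (univ : Finset (DirichletCharacter ℂ q)).filter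
        (fun χ => χ.conductor = d)) ?_ fun _ _ _ => by positivity) (sum_le_sum fun ψ hψ => ?_)
      · intro ψ hψ
        rw [mem_filter] at hψ ⊢
        exact ⟨mem_univ _, hψ.2⟩
      · rw [mem_filter] at hψ
        have h5 := (JJ_le hJ χ α ψ).2
        rw [hψ.2, Real.sqrt_div (by positivity)] at h5
        rw [mul_div_right_comm]
        apply mul_le_mul_of_nonneg_right _ (by positivity)
        refine h5.trans (le_of_eq ?_)
        ring
    refine (sum_le_sum h4).trans ?_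
    rw [sum_const, nsmul_eq_mul]
    apply mul_le_mul_of_nonneg_right _ (by positivity)
    exact_mod_cast card_filter_le _ _
  refine (add_le_add h1 h2).trans (le_of_eq ?_)
  ring

/-- the square root of the sum of the squares of the coefficients -/
lemma nn_le (X N : ℕ) (hXN : X ≤ N) (a : ℕ → ℂ) (ℓ : ℝ) (hℓ : 1 + Real.log N ≤ ℓ)
    (ha : ∀ m ∈ Icc 1 X, ‖a m‖ ≤ ℓ * (m.divisors.card : ℝ)) : nn X a ≤ √(X : ℝ) * ℓ ^ 3 := by
  have hℓ0 : 0 ≤ ℓ := by
    have : 0 ≤ Real.log N := Real.log_natCast_nonneg _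
    linarith
  unfold nn
  rw [Real.sqrt_le_left (by positivity), mul_pow, Real.sq_sqrt (Nat.cast_nonneg _)]
  have h1 := Pool.Agent.TH935.LD.tau_pow_sum 2 X
  calc ∑ m ∈ Icc 1 X, ‖a m‖ ^ 2 ≤ ∑ m ∈ Icc 1 X, ℓ ^ 2 * (m.divisors.card : ℝ) ^ 2 := by
        refine sum_le_sum fun m hm => ?_
        rw [← mul_pow]
        exact pow_le_pow_left₀ (norm_nonneg _) (ha m hm) 2
    _ = ℓ ^ 2 * ∑ m ∈ Icc 1 X, (m.divisors.card : ℝ) ^ 2 := by rw [mul_sum]
    _ ≤ ℓ ^ 2 * (X * (1 + Real.log X) ^ (2 ^ 2)) := mul_le_mul_of_nonneg_left h1 (by positivity)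
    _ ≤ ℓ ^ 2 * (X * ℓ ^ 4) := by
        apply mul_le_mul_of_nonneg_left _ (by positivity)
        apply mul_le_mul_of_nonneg_left _ (Nat.cast_nonneg _)
        norm_num
        apply pow_le_pow_left₀
        · have := Real.log_natCast_nonneg X
          linarith
        · rcases Nat.eq_zero_or_pos X with h0 | h0
          · subst h0
            simp only [Nat.cast_zero, Real.log_zero, add_zero]
            have : 0 ≤ Real.log N := Real.log_natCast_nonneg _
            linarith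
          · have : Real.log X ≤ Real.log N := Real.log_le_log (by exact_mod_cast h0) (by exact_mod_cast hXN)
            linarith
    _ = _ := by ring

end Pool.Agent.R461.GS
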