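import Pool.Agent.R461.GS.Shl2
import Pool.Agent.H510R2.Div
import Pool.Agent.Y883.T3.Vin

set_option autoImplicit false

/-! Project GS, job SHL, third part: the bilinear sums in the identity of Vaughan. -/

namespace Pool.Agent.R461.GS

open Finset
open Pool.Agent.H807R2.Dav (ee norm_ee)
open Pool.Agent.Y883.GJ
open Pool.Agent.Y183.GJ (ci gi Yi Xi Dm wn ai decomp w_sum gi_pos gi_le lt_gi)

/-- separation of the variables -/
lemma split_II {q : ℕ} [NeZero q] {δ η : ℝ} {y I : ℕ} (hδ : 0 < δ) {a b : ℕ → ℂ}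
    (ha : ∀ m, 1 ≤ m → a m ≠ 0 → m ≤ y ∧ ci δ m < I) (χ : DirichletCharacter ℂ q) (α : ZMod q) :
    ∑ m ∈ Icc 1 y, ∑ k ∈ Icc 1 (y / m), a m * b k * (ff χ α ((m * k : ℕ) : ZMod q) * ee ((m * k : ℕ) * η)) =
      ∑ i ∈ range I, (q.totient : ℂ)⁻¹ * ∑ ψ : DirichletCharacter ℂ q, JJ χ α ψ *
        (AS (Xi δ i) (ai δ a i) ψ * AS (Yi δ y i) (fun k => b k * ee (gi δ i * k * η)) ψ) +
      ∑ n ∈ Icc 1 y, wn δ y η a b n * ff χ α (n : ZMod q) := by
  have h1 : ∀ ψ : DirichletCharacter ℂ q,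
      ∑ m ∈ Icc 1 y, ∑ k ∈ Icc 1 (y / m), a m * b k * (ψ ((m * k : ℕ) : ZMod q) * ee ((m * k : ℕ) * η)) =
      ∑ i ∈ range I, (AS (Xi δ i) (ai δ a i) ψ * AS (Yi δ y i) (fun k => b k * ee (gi δ i * k * η)) ψ) +
      ∑ n ∈ Icc 1 y, wn δ y η a b n * ψ (n : ZMod q) := by
    intro ψ
    have h2 := decomp (η := η) (b := b) hδ ha (fun n : ℕ => ψ (n : ZMod q)) (fun m k => by push_cast; rw [map_mul])
    unfold AS
    exact h2
  have e1 : ∀ m k : ℕ, a m * b k * (ff χ α ((m * k : ℕ) : ZMod q) * ee ((m * k : ℕ) * η)) =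
      (q.totient : ℂ)⁻¹ * ∑ ψ : DirichletCharacter ℂ q, JJ χ α ψ *
        (a m * b k * (ψ ((m * k : ℕ) : ZMod q) * ee ((m * k : ℕ) * η))) := by
    intro m k
    rw [expand, mul_assoc ((q.totient : ℂ)⁻¹), mul_left_comm (a m * b k), sum_mul, mul_sum]
    congr 1
    refine sum_congr rfl fun ψ _ => ?_
    ring
  have e2 : ∀ n : ℕ, wn δ y η a b n * ff χ α (n : ZMod q) =
      (q.totient : ℂ)⁻¹ * ∑ ψ : DirichletCharacter ℂ q, JJ χ α ψ * (wn δ y η a b n * ψ (n : ZMod q)) := by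
    intro n
    rw [expand, mul_left_comm, mul_sum]
    congr 1
    refine sum_congr rfl fun ψ _ => ?_
    ring
  simp only [e1, e2]
  simp only [← mul_sum]
  rw [← mul_add]
  congr 1
  have e3 : ∑ m ∈ Icc 1 y, ∑ k ∈ Icc 1 (y / m), ∑ ψ : DirichletCharacter ℂ q, JJ χ α ψ *
        (a m * b k * (ψ ((m * k : ℕ) : ZMod q) * ee ((m * k : ℕ) * η))) =
      ∑ ψ : DirichletCharacter ℂ q, JJ χ α ψ * ∑ m ∈ Icc 1 y, ∑ k ∈ Icc 1 (y / m),
        (a m * b k * (ψ ((m * k : ℕ) : ZMod q) * ee ((m * k : ℕ) * η))) := by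
    rw [sum_congr rfl fun m _ => sum_comm, sum_comm]
    refine sum_congr rfl fun ψ _ => ?_
    rw [mul_sum]
    refine sum_congr rfl fun m _ => ?_
    rw [mul_sum]
  rw [e3]
  simp only [h1, mul_add, sum_add_distrib]
  congr 1
  · rw [sum_comm]
    refine sum_congr rfl fun ψ _ => ?_
    rw [mul_sum]
  · rw [sum_comm]
    refine sum_congr rfl fun ψ _ => ?_
    rw [mul_sum]

/-- one class, when the sums are long -/
lemma class_num {N D U g c dq q φ X Y L ℓ n1 n2 : ℝ} (hL : 1 ≤ L) (hℓ : ℓ = 1 + L) (hN : 0 < N) (hD : 1 ≤ D)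
    (hU : D ≤ U) (hX0 : 0 ≤ X) (hY0 : 0 ≤ Y) (hXY : X * Y ≤ N) (hUX : U ≤ X) (hUY : U ≤ Y) (hq1 : 1 ≤ q)
    (hq : q ≤ N / D) (hφ : 0 < φ) (hqφ : q ≤ (1 + 2 * Real.log q) * φ) (hlq : Real.log q ≤ L) (hlq0 : 0 ≤ Real.log q)
    (hdq : 0 ≤ dq) (hg : 0 ≤ g) (hn1 : 0 ≤ n1) (hn2 : 0 ≤ n2) (h1 : n1 ≤ √X * ℓ ^ 3) (h2 : n2 ≤ √Y * ℓ ^ 3) (_hc : 0 < c) :
    φ⁻¹ * (q * (1 + Real.log q) * (n1 * n2) * (12 * √(g / c) * √(X * Y) + dq * √g * √(X * Y / D + X + Y + q))) ≤
      2 * ℓ ^ 8 * N * (12 * √(g / c) + 2 * (dq * √g / √D)) := by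
  have hℓ1 : 1 ≤ ℓ := by linarith
  have hU0 : 0 < U := by linarith
  have hD0 : 0 < D := by linarith
  have hXN : X ≤ N / D := by
    rw [le_div_iff₀ hD0]
    calc X * D ≤ X * Y := mul_le_mul_of_nonneg_left (hU.trans hUY) hX0
      _ ≤ N := hXY
  have hYN : Y ≤ N / D := by
    rw [le_div_iff₀ hD0]
    calc Y * D ≤ Y * X := mul_le_mul_of_nonneg_left (hU.trans hUX) hY0
      _ = X * Y := mul_comm _ _
      _ ≤ N := hXY
  have e1 : √(X * Y / D + X + Y + q) ≤ 2 * (√N / √D) := by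
    have h3 : X * Y / D + X + Y + q ≤ 4 * (N / D) := by
      have : X * Y / D ≤ N / D := div_le_div_of_nonneg_right hXY hD0.le
      linarith
    calc √(X * Y / D + X + Y + q) ≤ √(4 * (N / D)) := Real.sqrt_le_sqrt h3
      _ = 2 * (√N / √D) := by
        rw [Real.sqrt_mul (by norm_num), Real.sqrt_div hN.le]
        congr 1
        rw [show (4 : ℝ) = 2 ^ 2 by norm_num, Real.sqrt_sq (by norm_num)]
  have e2 : √(X * Y) ≤ √N := Real.sqrt_le_sqrt hXY
  have e3 : n1 * n2 ≤ √N * ℓ ^ 6 := by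
    calc n1 * n2 ≤ (√X * ℓ ^ 3) * (√Y * ℓ ^ 3) := mul_le_mul h1 h2 hn2 (by positivity)
      _ = √(X * Y) * ℓ ^ 6 := by rw [Real.sqrt_mul hX0]; ring
      _ ≤ _ := mul_le_mul_of_nonneg_right e2 (by positivity)
  have e4 : φ⁻¹ * (q * (1 + Real.log q)) ≤ 2 * ℓ ^ 2 := by
    rw [inv_mul_le_iff₀ hφ]
    calc q * (1 + Real.log q) ≤ ((1 + 2 * Real.log q) * φ) * (1 + Real.log q) :=
          mul_le_mul_of_nonneg_right hqφ (by linarith)
      _ ≤ ((2 * ℓ) * φ) * ℓ := by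
          apply mul_le_mul _ (by linarith) (by linarith) (by positivity)
          apply mul_le_mul_of_nonneg_right _ hφ.le
          linarith
      _ = _ := by ring
  have hsD : 0 < √D := Real.sqrt_pos.2 hD0
  calc φ⁻¹ * (q * (1 + Real.log q) * (n1 * n2) * (12 * √(g / c) * √(X * Y) + dq * √g * √(X * Y / D + X + Y + q)))
      = (φ⁻¹ * (q * (1 + Real.log q))) * ((n1 * n2) * (12 * √(g / c) * √(X * Y) + dq * √g * √(X * Y / D + X + Y + q))) := by
        ring
    _ ≤ (2 * ℓ ^ 2) * ((√N * ℓ ^ 6) * (12 * √(g / c) * √N + dq * √g * (2 * (√N / √D)))) := by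
        apply mul_le_mul e4 _ (by positivity) (by positivity)
        apply mul_le_mul e3 _ (by positivity) (by positivity)
        apply add_le_add
        · exact mul_le_mul_of_nonneg_left e2 (by positivity)
        · exact mul_le_mul_of_nonneg_left e1 (by positivity)
    _ = 2 * ℓ ^ 8 * (√N * √N) * (12 * √(g / c) + 2 * (dq * √g / √D)) := by ring
    _ = _ := by rw [Real.mul_self_sqrt hN.le]

/-- one class -/
lemma one_class (hJ : JacStm) (hL : L2Stm) {q N y i D U : ℕ} [NeZero q] {δ η : ℝ} (hδ : 0 < δ) (hy : y ≤ N)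
    (hL1 : 1 ≤ Real.log N) (hD : 1 ≤ D) (hDU : D ^ 2 ≤ U) (hqN : (q : ℝ) ≤ N / D) (hq' : q ≤ N)
    {a b : ℕ → ℂ} (ha : ∀ m ∈ Icc 1 N, ‖a m‖ ≤ Real.log N * (m.divisors.card : ℝ))
    (hb : ∀ m ∈ Icc 1 N, ‖b m‖ ≤ Real.log N * (m.divisors.card : ℝ))
    (haU : ∀ m, a m ≠ 0 → U < m ∧ m ≤ N) (hbU : ∀ m, b m ≠ 0 → U < m) (χ : DirichletCharacter ℂ q) (α : ZMod q) :
    ‖(q.totient : ℂ)⁻¹ * ∑ ψ : DirichletCharacter ℂ q, JJ χ α ψ *
        (AS (Xi δ i) (ai δ a i) ψ * AS (Yi δ y i) (fun k => b k * ee (gi δ i * k * η)) ψ)‖ ≤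
      2 * (1 + Real.log N) ^ 8 * N * (12 * √((Nat.gcd α.val q : ℝ) / χ.conductor) +
        2 * ((q.divisors.card : ℝ) * √(Nat.gcd α.val q : ℝ) / √(D : ℝ))) := by
  have hq0 : 0 < q := Nat.pos_of_ne_zero (NeZero.ne q)
  have hq1 : (1 : ℝ) ≤ q := by exact_mod_cast hq0
  have hlq : 0 ≤ Real.log q := Real.log_nonneg hq1
  have hN0 : (0 : ℝ) < N := by exact_mod_cast (by omega : 0 < N)
  have hD0 : (0 : ℝ) < D := by exact_mod_cast (by omega : 0 < D)
  have hgi := gi_pos δ (i + 1)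
  set b' : ℕ → ℂ := fun k => b k * ee (gi δ i * k * η) with hb'
  have hbb : ∀ k, ‖b' k‖ = ‖b k‖ := by
    intro k
    rw [hb']
    simp only
    rw [norm_mul, norm_ee, mul_one]
  by_cases hXU : U < Xi δ i
  · by_cases hYU : U < Yi δ y i
    · have h1 : ‖(q.totient : ℂ)⁻¹ * ∑ ψ : DirichletCharacter ℂ q, JJ χ α ψ *
          (AS (Xi δ i) (ai δ a i) ψ * AS (Yi δ y i) b' ψ)‖ ≤
          (q.totient : ℝ)⁻¹ * (q * (1 + Real.log q) * (nn (Xi δ i) (ai δ a i) * nn (Yi δ y i) b') *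
          (12 * √((Nat.gcd α.val q : ℝ) / χ.conductor) * √(((Xi δ i : ℕ) : ℝ) * (Yi δ y i : ℕ)) +
            (q.divisors.card : ℝ) * √(Nat.gcd α.val q : ℝ) *
              √(((Xi δ i : ℕ) : ℝ) * (Yi δ y i : ℕ) / D + (Xi δ i : ℕ) + (Yi δ y i : ℕ) + q))) := by
        rw [norm_mul, norm_inv, Complex.norm_natCast]
        apply mul_le_mul_of_nonneg_left _ (by positivity)
        refine le_trans ?_ (bil_char hJ hL q (Xi δ i) (Yi δ y i) D hD (by omega) (by omega) (ai δ a i) b' χ α)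
        refine (norm_sum_le _ _).trans (sum_le_sum fun ψ _ => ?_)
        rw [norm_mul, norm_mul]
      refine h1.trans ?_
      have hXle : ((Xi δ i : ℕ) : ℝ) ≤ gi δ (i + 1) := Nat.floor_le hgi.le
      have hYle : ((Yi δ y i : ℕ) : ℝ) ≤ y / gi δ (i + 1) := Nat.floor_le (by positivity)
      have hyN : (y : ℝ) ≤ N := by exact_mod_cast hy
      have hXY : ((Xi δ i : ℕ) : ℝ) * (Yi δ y i : ℕ) ≤ N := by
        calc ((Xi δ i : ℕ) : ℝ) * (Yi δ y i : ℕ) ≤ gi δ (i + 1) * (y / gi δ (i + 1)) :=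
              mul_le_mul hXle hYle (Nat.cast_nonneg _) hgi.le
          _ = y := by field_simp
          _ ≤ N := hyN
      have hXN : Xi δ i ≤ N := by
        have h2 : Xi δ i * Yi δ y i ≤ N := by exact_mod_cast hXY
        exact le_trans (Nat.le_mul_of_pos_right _ (by omega)) h2
      have hYN : Yi δ y i ≤ N := by
        have h2 : Xi δ i * Yi δ y i ≤ N := by exact_mod_cast hXY
        exact le_trans (Nat.le_mul_of_pos_left _ (by omega)) h2
      refine class_num (U := (U : ℝ)) hL1 rfl hN0 (by exact_mod_cast hD) ?_ (Nat.cast_nonneg _) (Nat.cast_nonneg _) hXY ?_ ?_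
        hq1 hqN (tot_pos q) ?_ ?_ hlq (Nat.cast_nonneg _) (Nat.cast_nonneg _) (nn_nonneg _ _) (nn_nonneg _ _) ?_ ?_ ?_
      · have : D ≤ U := le_trans (by nlinarith) hDU
        exact_mod_cast this
      · exact_mod_cast hXU.le
      · exact_mod_cast hYU.le
      · exact Pool.Agent.R461.GS.phi_low q hq0
      · exact Real.log_le_log (by linarith) (by exact_mod_cast hq')
      · apply nn_le (Xi δ i) N hXN _ _ le_rfl
        intro m hm
        rw [mem_Icc] at hm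
        unfold ai
        have hd : (0 : ℝ) ≤ (m.divisors.card : ℝ) := Nat.cast_nonneg _
        have h3 := ha m (mem_Icc.2 ⟨hm.1, hm.2.trans hXN⟩)
        split_ifs
        · nlinarith
        · rw [norm_zero]
          nlinarith
      · apply nn_le (Yi δ y i) N hYN _ _ le_rfl
        intro m hm
        rw [mem_Icc] at hm
        have hd : (0 : ℝ) ≤ (m.divisors.card : ℝ) := Nat.cast_nonneg _
        have h3 := hb m (mem_Icc.2 ⟨hm.1, hm.2.trans hYN⟩)
        rw [hbb]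
        nlinarith
      · have : χ.conductor ≠ 0 := by
          intro h
          have := χ.conductor_dvd_level
          rw [h] at this
          exact hq0.ne' (Nat.eq_zero_of_zero_dvd this)
        exact_mod_cast Nat.pos_of_ne_zero this
    · have h0 : ∀ ψ : DirichletCharacter ℂ q, AS (Yi δ y i) b' ψ = 0 := by
        intro ψ
        unfold AS
        refine sum_eq_zero fun k hk => ?_
        rw [mem_Icc] at hk
        have : b k = 0 := by
          by_contra h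
          have := hbU k h
          omega
        have h2 : b' k = 0 := by
          rw [hb']
          simp only
          rw [this, zero_mul]
        rw [h2, zero_mul]
      simp only [h0, mul_zero, sum_const_zero, norm_zero]
      positivity
  · have h0 : ∀ ψ : DirichletCharacter ℂ q, AS (Xi δ i) (ai δ a i) ψ = 0 := by
      intro ψ
      unfold AS
      refine sum_eq_zero fun k hk => ?_
      rw [mem_Icc] at hk
      have : a k = 0 := by
        by_contra h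
        have := (haU k h).1
        omega
      unfold ai
      rw [this, ite_self, zero_mul]
    simp only [h0, zero_mul, mul_zero, sum_const_zero, norm_zero]
    positivity

end Pool.Agent.R461.GS
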