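import Pool.Agent.R461.GS.Shl3

set_option autoImplicit false

/-! Project GS, job SHL, fourth part: the bilinear sums in the identity of Vaughan. -/

namespace Pool.Agent.R461.GS

open Finset
open Pool.Agent.H807R2.Dav (ee norm_ee)
open Pool.Agent.Y883.GJ
open Pool.Agent.Y183.GJ (ci gi Yi Xi Dm wn ai decomp w_sum gi_pos gi_le lt_gi)

/-- the numerical part for the error of the separation -/
lemma err_num {N y S E δ L c1 c2 sq : ℝ} {B C M p₁ p₂ : ℕ} (hL : 1 ≤ L) (hy0 : 0 ≤ y) (hyN : y ≤ N) (hN : 0 < N)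
    (hc1 : 0 ≤ c1) (hc2 : 0 ≤ c2) (hδ : δ = (L ^ M)⁻¹) (hδN : L ^ M ≤ N) (hE : E = L ^ C) (hS0 : 0 ≤ S)
    (hS : S ^ 2 ≤ (δ * y + 1) * (y * (c1 * L ^ p₁)))
    (hsq0 : 0 ≤ sq) (hsq : sq ^ 2 ≤ y * (2 * L ^ 4 * (S + (7 * (E * δ)) ^ 2 * (y * (c2 * L ^ p₂)))))
    (hM : M = p₁ + p₂ + 4 * B + 2 * C + 10) (h1 : 512 * c1 ≤ L) (h2 : 784 * c2 ≤ L) :
    sq ≤ N / (2 * L ^ B) := by
  have hL0 : 0 < L := by linarith
  have hLM : 0 < L ^ M := by positivity
  have hδ0 : 0 < δ := by rw [hδ]; positivity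
  have hδM : δ * L ^ M = 1 := by rw [hδ]; exact inv_mul_cancel₀ hLM.ne'
  have hδN' : 1 ≤ δ * N := by
    rw [← hδM]
    exact mul_le_mul_of_nonneg_left hδN hδ0.le
  have e1 : S ≤ N / (16 * L ^ (2 * B + 4)) := by
    apply le_of_sq_le_sq _ (by positivity)
    refine hS.trans ?_
    have f1 : δ * y + 1 ≤ 2 * (δ * N) := by
      have := mul_le_mul_of_nonneg_left hyN hδ0.le
      linarith
    calc (δ * y + 1) * (y * (c1 * L ^ p₁)) ≤ (2 * (δ * N)) * (N * (c1 * L ^ p₁)) := by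
          apply mul_le_mul f1 _ (by positivity) (by positivity)
          exact mul_le_mul_of_nonneg_right hyN (by positivity)
      _ = N ^ 2 * (2 * δ * (c1 * L ^ p₁)) := by ring
      _ ≤ N ^ 2 * (1 / (256 * (L ^ (2 * B + 4)) ^ 2)) := by
          apply mul_le_mul_of_nonneg_left _ (by positivity)
          rw [le_div_iff₀ (by positivity)]
          have f2 : (512 * c1) * (L ^ p₁ * (L ^ (2 * B + 4)) ^ 2) ≤ L ^ M := by
            calc (512 * c1) * (L ^ p₁ * (L ^ (2 * B + 4)) ^ 2) ≤ L * (L ^ p₁ * (L ^ (2 * B + 4)) ^ 2) :=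
                  mul_le_mul_of_nonneg_right h1 (by positivity)
              _ = L ^ (p₁ + (4 * B + 8) + 1) := by rw [← pow_mul]; ring
              _ ≤ L ^ M := pow_le_pow_right₀ hL (by omega)
          calc 2 * δ * (c1 * L ^ p₁) * (256 * (L ^ (2 * B + 4)) ^ 2) =
              δ * ((512 * c1) * (L ^ p₁ * (L ^ (2 * B + 4)) ^ 2)) := by ring
            _ ≤ δ * L ^ M := mul_le_mul_of_nonneg_left f2 hδ0.le
            _ = 1 := hδM
      _ = (N / (16 * L ^ (2 * B + 4))) ^ 2 := by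
          field_simp
          ring
  have e2 : (7 * (E * δ)) ^ 2 * (y * (c2 * L ^ p₂)) ≤ N / (16 * L ^ (2 * B + 4)) := by
    calc (7 * (E * δ)) ^ 2 * (y * (c2 * L ^ p₂)) ≤ (7 * (E * δ)) ^ 2 * (N * (c2 * L ^ p₂)) := by
          apply mul_le_mul_of_nonneg_left _ (by positivity)
          exact mul_le_mul_of_nonneg_right hyN (by positivity)
      _ = N * (49 * c2 * (L ^ C) ^ 2 * L ^ p₂ * δ ^ 2) := by rw [hE]; ring
      _ ≤ N * (1 / (16 * L ^ (2 * B + 4))) := by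
          apply mul_le_mul_of_nonneg_left _ hN.le
          rw [le_div_iff₀ (by positivity)]
          have f2 : (784 * c2) * ((L ^ C) ^ 2 * L ^ p₂ * L ^ (2 * B + 4)) ≤ L ^ M := by
            calc (784 * c2) * ((L ^ C) ^ 2 * L ^ p₂ * L ^ (2 * B + 4)) ≤
                L * ((L ^ C) ^ 2 * L ^ p₂ * L ^ (2 * B + 4)) :=
                  mul_le_mul_of_nonneg_right h2 (by positivity)
              _ = L ^ (2 * C + p₂ + (2 * B + 4) + 1) := by rw [← pow_mul]; ring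
              _ ≤ L ^ M := pow_le_pow_right₀ hL (by omega)
          have f3 : δ ≤ 1 := by
            rw [hδ]
            exact inv_le_one_of_one_le₀ (one_le_pow₀ hL)
          calc 49 * c2 * (L ^ C) ^ 2 * L ^ p₂ * δ ^ 2 * (16 * L ^ (2 * B + 4)) =
              δ * (δ * ((784 * c2) * ((L ^ C) ^ 2 * L ^ p₂ * L ^ (2 * B + 4)))) := by ring
            _ ≤ δ * (δ * L ^ M) := by
                apply mul_le_mul_of_nonneg_left _ hδ0.le
                exact mul_le_mul_of_nonneg_left f2 hδ0.le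
            _ ≤ 1 := by rw [hδM, mul_one]; exact f3
      _ = _ := by ring
  apply le_of_sq_le_sq _ (by positivity)
  refine hsq.trans ?_
  have hS' : 0 ≤ S + (7 * (E * δ)) ^ 2 * (y * (c2 * L ^ p₂)) := by
    rw [hE]
    positivity
  calc y * (2 * L ^ 4 * (S + (7 * (E * δ)) ^ 2 * (y * (c2 * L ^ p₂))))
      ≤ N * (2 * L ^ 4 * (N / (16 * L ^ (2 * B + 4)) + N / (16 * L ^ (2 * B + 4)))) := by
        apply mul_le_mul hyN _ (by positivity) hN.le
        apply mul_le_mul_of_nonneg_left _ (by positivity)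
        exact add_le_add e1 e2
    _ = (N / (2 * L ^ B)) ^ 2 := by
        have : L ^ (2 * B + 4) = (L ^ B) ^ 2 * L ^ 4 := by rw [← pow_mul]; ring
        rw [this]
        field_simp
        ring

/-- the numerical part for the main term -/
lemma main_num {N L I g c dq D C1 : ℝ} {B M T K' K : ℕ} (hL : 1 ≤ L) (hL2 : 28672 ≤ L) (hN : 1 ≤ N) (hI : I ≤ 2 * L ^ (M + 1)) (_hI0 : 0 ≤ I)
    (hg1 : g ≤ L ^ T) (hg0 : 0 ≤ g) (hc : L ^ K < c) (hK : K = T + 2 * K') (hK' : K' = M + B + 10)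
    (hdq0 : 0 ≤ dq) (hdq : dq ≤ C1 * N ^ (1 / 100 : ℝ)) (_hC1 : 0 ≤ C1) (hD0 : 0 < D) (hD : N ^ (1 / 20 : ℝ) ≤ 2 * D)
    (hbig : 2 * C1 * L ^ (T + K') ≤ N ^ (3 / 200 : ℝ)) :
    I * (2 * (1 + L) ^ 8 * N * (12 * √(g / c) + 2 * (dq * √g / √D))) ≤ N / (2 * L ^ B) := by
  have hL0 : 0 < L := by linarith
  have hN0 : 0 < N := by linarith
  have hc0 : 0 < c := lt_trans (by positivity) hc
  have hx : (L ^ K')⁻¹ * L ^ K' = 1 := inv_mul_cancel₀ (by positivity)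
  have e1 : √(g / c) ≤ (L ^ K')⁻¹ := by
    rw [Real.sqrt_le_left (by positivity), div_le_iff₀ hc0]
    calc g ≤ L ^ T := hg1
      _ = ((L ^ K')⁻¹ * L ^ K') ^ 2 * L ^ T := by rw [hx]; ring
      _ = ((L ^ K')⁻¹) ^ 2 * L ^ K := by rw [hK]; ring
      _ ≤ ((L ^ K')⁻¹) ^ 2 * c := mul_le_mul_of_nonneg_left hc.le (by positivity)
  have e2 : √g ≤ L ^ T := by
    rw [Real.sqrt_le_left (by positivity)]
    have : 1 ≤ L ^ T := one_le_pow₀ hL
    nlinarith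
  have e3 : N ^ (1 / 40 : ℝ) ≤ 2 * √D := by
    have f1 : N ^ (1 / 40 : ℝ) = √(N ^ (1 / 20 : ℝ)) := by
      rw [Real.sqrt_eq_rpow, ← Real.rpow_mul hN0.le]
      norm_num
    rw [f1]
    calc √(N ^ (1 / 20 : ℝ)) ≤ √(2 ^ 2 * D) := Real.sqrt_le_sqrt (by linarith)
      _ = 2 * √D := by rw [Real.sqrt_mul (by norm_num), Real.sqrt_sq (by norm_num)]
  have hsD : 0 < √D := Real.sqrt_pos.2 hD0
  have e4 : dq * √g / √D ≤ (L ^ K')⁻¹ := by
    rw [div_le_iff₀ hsD]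
    have f1 : N ^ (1 / 100 : ℝ) * N ^ (3 / 200 : ℝ) = N ^ (1 / 40 : ℝ) := by
      rw [← Real.rpow_add hN0]
      norm_num
    have f2 : dq * √g * L ^ K' ≤ √D := by
      have f3 : dq * √g ≤ C1 * N ^ (1 / 100 : ℝ) * L ^ T := mul_le_mul hdq e2 (Real.sqrt_nonneg _) (by positivity)
      have f4 : dq * √g * L ^ K' ≤ C1 * N ^ (1 / 100 : ℝ) * L ^ T * L ^ K' :=
        mul_le_mul_of_nonneg_right f3 (by positivity)
      have f5 : C1 * N ^ (1 / 100 : ℝ) * L ^ T * L ^ K' * 2 = N ^ (1 / 100 : ℝ) * (2 * C1 * L ^ (T + K')) := by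
        rw [pow_add]; ring
      have f6 : N ^ (1 / 100 : ℝ) * (2 * C1 * L ^ (T + K')) ≤ N ^ (1 / 100 : ℝ) * N ^ (3 / 200 : ℝ) :=
        mul_le_mul_of_nonneg_left hbig (by positivity)
      rw [f1] at f6
      linarith
    calc dq * √g = dq * √g * L ^ K' * (L ^ K')⁻¹ := by rw [mul_assoc, mul_comm (L ^ K') _, hx, mul_one]
      _ ≤ √D * (L ^ K')⁻¹ := mul_le_mul_of_nonneg_right f2 (by positivity)
      _ = _ := mul_comm _ _
  have e5 : (1 + L) ^ 8 ≤ (2 * L) ^ 8 := pow_le_pow_left₀ (by linarith) (by linarith) 8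
  calc I * (2 * (1 + L) ^ 8 * N * (12 * √(g / c) + 2 * (dq * √g / √D)))
      ≤ (2 * L ^ (M + 1)) * (2 * (2 * L) ^ 8 * N * (12 * (L ^ K')⁻¹ + 2 * (L ^ K')⁻¹)) := by
        apply mul_le_mul hI _ (by positivity) (by positivity)
        apply mul_le_mul
        · apply mul_le_mul_of_nonneg_right _ hN0.le
          exact mul_le_mul_of_nonneg_left e5 (by norm_num)
        · apply add_le_add
          · exact mul_le_mul_of_nonneg_left e1 (by norm_num)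
          · exact mul_le_mul_of_nonneg_left e4 (by norm_num)
        · positivity
        · positivity
    _ = 14336 * (L ^ (M + 9) * N * (L ^ K')⁻¹) := by ring
    _ ≤ N / (2 * L ^ B) := by
        rw [le_div_iff₀ (by positivity)]
        have f1 : L ^ K' = L ^ (M + 9) * L * L ^ B := by rw [hK']; ring
        rw [f1]
        have f2 : 14336 * (L ^ (M + 9) * N * (L ^ (M + 9) * L * L ^ B)⁻¹) * (2 * L ^ B) = N * (28672 / L) := by
          field_simp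
          ring
        rw [f2]
        have f3 : 28672 / L ≤ 1 := by
          rw [div_le_one hL0]
          exact hL2
        nlinarith

/-- type II sums -/
theorem typeII (hJ : JacStm) (hL2 : L2Stm) (B C T : ℕ) : ∃ K N₀ : ℕ, ∀ N : ℕ, N₀ ≤ N →
    ∀ (q : ℕ) [NeZero q], (q : ℝ) ≤ (N : ℝ) ^ (7 / 10 : ℝ) → ∀ χ : DirichletCharacter ℂ q,
    Real.log N ^ K < χ.conductor → ∀ α : ZMod q, (Nat.gcd α.val q : ℝ) ≤ Real.log N ^ T →
    ∀ η : ℝ, |η| ≤ Real.log N ^ C / N → ∀ y : ℕ, y ≤ N → ∀ a b : ℕ → ℂ,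
    (∀ m ∈ Icc 1 N, ‖a m‖ ≤ Real.log N * (m.divisors.card : ℝ)) →
    (∀ m ∈ Icc 1 N, ‖b m‖ ≤ Real.log N * (m.divisors.card : ℝ)) →
    (∀ m, a m ≠ 0 → ⌊(N : ℝ) ^ (1 / 10 : ℝ)⌋₊ < m) → (∀ m, b m ≠ 0 → ⌊(N : ℝ) ^ (1 / 10 : ℝ)⌋₊ < m) →
    ‖∑ m ∈ Icc 1 y, ∑ k ∈ Icc 1 (y / m), a m * b k * (ff χ α ((m * k : ℕ) : ZMod q) * ee ((m * k : ℕ) * η))‖ ≤
      N / Real.log N ^ B := by
  obtain ⟨p₁, hp₁⟩ : ∃ p₁ : ℕ, 2 ^ 12 = p₁ := ⟨_, rfl⟩
  obtain ⟨p₂, hp₂⟩ : ∃ p₂ : ℕ, 2 ^ 6 = p₂ := ⟨_, rfl⟩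
  obtain ⟨C1, hC1, hdiv⟩ := Pool.Agent.H510R2.divisor_bound (1 / 100) (by norm_num)
  obtain ⟨M, hM⟩ : ∃ M : ℕ, M = p₁ + p₂ + 4 * B + 2 * C + 10 := ⟨_, rfl⟩
  obtain ⟨K', hK'⟩ : ∃ K' : ℕ, K' = M + B + 10 := ⟨_, rfl⟩
  obtain ⟨n1, hn1⟩ := Pool.Agent.H373R2.T7.ev_L' (28672 + 512 * 2 ^ p₁ + 784 * 2 ^ p₂)
  obtain ⟨n2, hn2⟩ := Pool.Agent.Y883.T3.ev_log_rpow (T + K') (2 * C1) (3 / 200) (by norm_num)
  obtain ⟨n3, hn3⟩ := Pool.Agent.Y883.T3.ev_log_rpow M 1 1 (by norm_num)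
  refine ⟨T + 2 * K', max (max n1 n2) (max n3 3), fun N hN q _ hq χ hχ α hα η hη y hy a b ha hb haU hbU => ?_⟩
  have hNn1 : n1 ≤ N := le_trans (le_trans (le_max_left _ _) (le_max_left _ _)) hN
  have hNn2 : n2 ≤ N := le_trans (le_trans (le_max_right _ _) (le_max_left _ _)) hN
  have hNn3 : n3 ≤ N := le_trans (le_trans (le_max_left _ _) (le_max_right _ _)) hN
  have hN3 : 3 ≤ N := le_trans (le_trans (le_max_right _ _) (le_max_right _ _)) hN
  have hLb := hn1 N hNn1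
  have hbig := hn2 N hNn2
  have hM1 := hn3 N hNn3
  rw [one_mul, Real.rpow_one] at hM1
  have hN1 : (1 : ℝ) ≤ N := by exact_mod_cast (by omega : 1 ≤ N)
  have hN0 : (0 : ℝ) < N := by linarith
  obtain ⟨L, hLdef⟩ : ∃ L, L = Real.log (N : ℝ) := ⟨_, rfl⟩
  have hp1' : (0 : ℝ) < 2 ^ p₁ := by positivity
  have hp2' : (0 : ℝ) < 2 ^ p₂ := by positivity
  have hL1 : (1 : ℝ) ≤ Real.log N := by linarith
  set U := ⌊(N : ℝ) ^ (1 / 10 : ℝ)⌋₊ with hU
  obtain ⟨D, hD⟩ : ∃ D : ℕ, D = ⌊(N : ℝ) ^ (1 / 20 : ℝ)⌋₊ := ⟨_, rfl⟩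
  have hDle : (D : ℝ) ≤ (N : ℝ) ^ (1 / 20 : ℝ) := by rw [hD]; exact Nat.floor_le (by positivity)
  have hD1 : 1 ≤ D := by
    rw [hD]
    apply Nat.le_floor
    simpa using Real.one_le_rpow hN1 (by norm_num : (0 : ℝ) ≤ 1 / 20)
  have hD0 : (0 : ℝ) < D := by exact_mod_cast hD1
  have hDge : (N : ℝ) ^ (1 / 20 : ℝ) ≤ 2 * D := by
    have e1 := Nat.lt_floor_add_one ((N : ℝ) ^ (1 / 20 : ℝ))
    rw [← hD] at e1
    have e2 : (1 : ℝ) ≤ D := by exact_mod_cast hD1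
    linarith
  have hDU : D ^ 2 ≤ U := by
    rw [hU]
    apply Nat.le_floor
    push_cast
    calc (D : ℝ) ^ 2 ≤ ((N : ℝ) ^ (1 / 20 : ℝ)) ^ 2 := pow_le_pow_left₀ hD0.le hDle 2
      _ = (N : ℝ) ^ (1 / 10 : ℝ) := by
        rw [← Real.rpow_natCast, ← Real.rpow_mul hN0.le]
        norm_num
  have hqD : (q : ℝ) ≤ N / D := by
    rw [le_div_iff₀ hD0]
    calc (q : ℝ) * D ≤ (N : ℝ) ^ (7 / 10 : ℝ) * (N : ℝ) ^ (1 / 20 : ℝ) :=
          mul_le_mul hq hDle hD0.le (by positivity)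
      _ = (N : ℝ) ^ (3 / 4 : ℝ) := by rw [← Real.rpow_add hN0]; norm_num
      _ ≤ (N : ℝ) ^ (1 : ℝ) := Real.rpow_le_rpow_of_exponent_le hN1 (by norm_num)
      _ = N := Real.rpow_one _
  have hqN : q ≤ N := by
    have e1 : (q : ℝ) ≤ N := hq.trans (by
      calc (N : ℝ) ^ (7 / 10 : ℝ) ≤ (N : ℝ) ^ (1 : ℝ) := Real.rpow_le_rpow_of_exponent_le hN1 (by norm_num)
        _ = N := Real.rpow_one _)
    exact_mod_cast e1
  have hdq : ((q.divisors.card : ℕ) : ℝ) ≤ C1 * (N : ℝ) ^ (1 / 100 : ℝ) := by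
    refine (hdiv q (Nat.pos_of_ne_zero (NeZero.ne q))).trans ?_
    apply mul_le_mul_of_nonneg_left _ hC1.le
    apply Real.rpow_le_rpow (Nat.cast_nonneg _) (by exact_mod_cast hqN) (by norm_num)
  obtain ⟨δ, hδ⟩ : ∃ δ : ℝ, δ = (Real.log N ^ M)⁻¹ := ⟨_, rfl⟩
  have hδ0 : 0 < δ := by rw [hδ]; positivity
  obtain ⟨I, hI⟩ : ∃ I : ℕ, I = ⌊Real.log N / δ⌋₊ + 1 := ⟨_, rfl⟩
  have hIle : (I : ℝ) ≤ 2 * Real.log N ^ (M + 1) := by
    have e1 : ((⌊Real.log N / δ⌋₊ : ℕ) : ℝ) ≤ Real.log N / δ := Nat.floor_le (by positivity)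
    have e2 : Real.log N / δ = Real.log N ^ (M + 1) := by
      rw [hδ, div_inv_eq_mul, pow_succ]
      ring
    have e3 : 1 ≤ Real.log N ^ (M + 1) := one_le_pow₀ hL1
    have e4 := e1.trans (le_of_eq e2)
    rw [hI]
    push_cast
    linarith
  -- restriction to `m ≤ y`
  set a' : ℕ → ℂ := fun m => if m ≤ y then a m else 0 with ha'
  have hsum : ∑ m ∈ Icc 1 y, ∑ k ∈ Icc 1 (y / m), a m * b k * (ff χ α ((m * k : ℕ) : ZMod q) * ee ((m * k : ℕ) * η)) =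
      ∑ m ∈ Icc 1 y, ∑ k ∈ Icc 1 (y / m), a' m * b k * (ff χ α ((m * k : ℕ) : ZMod q) * ee ((m * k : ℕ) * η)) := by
    refine sum_congr rfl fun m hm => ?_
    rw [mem_Icc] at hm
    have : a' m = a m := by rw [ha']; simp only; rw [if_pos hm.2]
    rw [this]
  have ha1 : ∀ m ∈ Icc 1 N, ‖a' m‖ ≤ Real.log N * (m.divisors.card : ℝ) := by
    intro m hm
    rw [ha']
    simp only
    split_ifs
    · exact ha m hm
    · rw [norm_zero]
      positivity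
  have ha2 : ∀ m, a' m ≠ 0 → m ≤ y ∧ a m ≠ 0 := by
    intro m hm
    rw [ha'] at hm
    simp only at hm
    by_cases h : m ≤ y
    · rw [if_pos h] at hm
      exact ⟨h, hm⟩
    · rw [if_neg h] at hm
      exact absurd rfl hm
  rw [hsum, split_II (I := I) hδ0 (fun m hm h0 => ⟨(ha2 m h0).1, by
    rw [hI]
    unfold ci
    apply Nat.lt_succ_of_le
    apply Nat.floor_le_floor
    apply div_le_div_of_nonneg_right _ hδ0.le
    exact Real.log_le_log (by exact_mod_cast hm) (by exact_mod_cast (ha2 m h0).1.trans hy)⟩) χ α]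
  have hmain : ‖∑ i ∈ range I, (q.totient : ℂ)⁻¹ * ∑ ψ : DirichletCharacter ℂ q, JJ χ α ψ *
        (AS (Xi δ i) (ai δ a' i) ψ * AS (Yi δ y i) (fun k => b k * ee (gi δ i * k * η)) ψ)‖ ≤
      N / (2 * Real.log N ^ B) := by
    refine (norm_sum_le _ _).trans ((sum_le_sum fun i _ => one_class hJ hL2 hδ0 hy hL1 hD1 hDU hqD hqN ha1 hb
      (fun m h0 => ⟨haU m (ha2 m h0).2, (ha2 m h0).1.trans hy⟩) hbU χ α).trans ?_)
    rw [sum_const, card_range, nsmul_eq_mul]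
    refine main_num (D := (D : ℝ)) hL1 (by linarith) hN1 hIle (Nat.cast_nonneg _) hα (Nat.cast_nonneg _) hχ rfl hK' (Nat.cast_nonneg _) hdq hC1.le
      hD0 hDge hbig
  have herr : ‖∑ n ∈ Icc 1 y, wn δ y η a' b n * ff χ α (n : ZMod q)‖ ≤ N / (2 * Real.log N ^ B) := by
    have hηy : (y : ℝ) * |η| ≤ Real.log N ^ C := by
      calc (y : ℝ) * |η| ≤ N * (Real.log N ^ C / N) :=
            mul_le_mul (by exact_mod_cast hy) hη (abs_nonneg _) hN0.le
        _ = _ := by field_simp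
    obtain ⟨S, hS0, hS1, hS2⟩ := w_sum (ℓ := Real.log N) (a := a') (b := b) hp₁ hp₂ hδ0 hηy
      (fun m hm => ha1 m (mem_Icc.2 ⟨(mem_Icc.1 hm).1, (mem_Icc.1 hm).2.trans hy⟩))
      (fun m hm => hb m (mem_Icc.2 ⟨(mem_Icc.1 hm).1, (mem_Icc.1 hm).2.trans hy⟩)) (by linarith)
    have hlog : 1 + Real.log y ≤ 2 * Real.log N := by
      rcases Nat.eq_zero_or_pos y with h0 | h0
      · rw [h0]
        simp only [Nat.cast_zero, Real.log_zero]
        linarith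
      · have : Real.log y ≤ Real.log N := Real.log_le_log (by exact_mod_cast h0) (by exact_mod_cast hy)
        linarith
    have hlog0 : 0 ≤ 1 + Real.log y := by
      have := Real.log_natCast_nonneg y
      linarith
    have hy0 : (0 : ℝ) ≤ y := Nat.cast_nonneg _
    have hsq : √((y : ℝ) * ∑ n ∈ Icc 1 y, ‖wn δ y η a' b n‖ ^ 2) ≤ N / (2 * Real.log N ^ B) := by
      refine err_num (y := y) (S := S) (E := Real.log N ^ C) (δ := δ) (c1 := 2 ^ p₁) (c2 := 2 ^ p₂) (C := C) (M := M)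
        (p₁ := p₁) (p₂ := p₂) hL1 hy0 (by exact_mod_cast hy) hN0 hp1'.le hp2'.le hδ hM1 rfl hS0 (hS1.trans ?_)
        (Real.sqrt_nonneg _) ?_ hM (by linarith) (by linarith)
      · apply mul_le_mul_of_nonneg_left _ (by positivity)
        apply mul_le_mul_of_nonneg_left _ hy0
        rw [← mul_pow]
        exact pow_le_pow_left₀ hlog0 hlog _
      · rw [Real.sq_sqrt (by positivity)]
        apply mul_le_mul_of_nonneg_left _ hy0
        refine hS2.trans ?_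
        apply mul_le_mul_of_nonneg_left _ (by positivity)
        apply add_le_add_right
        apply mul_le_mul_of_nonneg_left _ (by positivity)
        apply mul_le_mul_of_nonneg_left _ hy0
        rw [← mul_pow]
        exact pow_le_pow_left₀ hlog0 hlog _
    refine le_trans ?_ hsq
    refine (norm_sum_le _ _).trans ?_
    calc ∑ n ∈ Icc 1 y, ‖wn δ y η a' b n * ff χ α (n : ZMod q)‖ ≤ ∑ n ∈ Icc 1 y, ‖wn δ y η a' b n‖ := by
          refine sum_le_sum fun n _ => ?_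
          rw [norm_mul]
          have := ff_norm χ α (n : ZMod q)
          have h2 := norm_nonneg (wn δ y η a' b n)
          nlinarith
      _ ≤ √((y : ℝ) * ∑ n ∈ Icc 1 y, ‖wn δ y η a' b n‖ ^ 2) := by
          apply Real.le_sqrt_of_sq_le
          have := sq_sum_le_card_mul_sum_sq (s := Icc 1 y) (f := fun n => ‖wn δ y η a' b n‖)
          rw [Nat.card_Icc] at this
          simpa using this
  calc _ ≤ N / (2 * Real.log N ^ B) + N / (2 * Real.log N ^ B) := (norm_add_le _ _).trans (add_le_add hmain herr)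
    _ = N / Real.log N ^ B := by
        field_simp
        ring

end Pool.Agent.R461.GS
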